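import Pool.Agent.H86.AR.ZA1

/-! # ZA: the zonal kernel is an amplitude at scale `1/L` -/

set_option autoImplicit false

namespace Pool.Agent.H86.AR

open MeasureTheory Set Metric FourierTransform Pool.Agent.H83.LS Pool.Agent.H54.LS
  Pool.Agent.H93.AR
open scoped ENNReal NNReal SchwartzMap

/-- a compactly supported version of `|s| ^ α` -/
noncomputable def za_rho (α s : ℝ) : ℝ :=
  Real.smoothTransition (16 * s - 1) * Real.smoothTransition (9 - s) * |s| ^ α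

theorem za_rho_eq {α s : ℝ} (h1 : 1 / 8 ≤ s) (h2 : s ≤ 8) : za_rho α s = |s| ^ α := by
  unfold za_rho
  rw [Real.smoothTransition.one_of_one_le (by linarith),
    Real.smoothTransition.one_of_one_le (by linarith), one_mul, one_mul]

theorem za_rho_smooth (α : ℝ) : ContDiff ℝ (⊤ : ℕ∞) (za_rho α) := by
  rw [contDiff_iff_contDiffAt]
  intro s
  by_cases hs : s = 0
  · have h1 : za_rho α =ᶠ[nhds s] fun _ => 0 := by
      have h2 : ball (0 : ℝ) (1 / 16) ∈ nhds s := by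
        rw [hs]
        exact ball_mem_nhds _ (by norm_num)
      filter_upwards [h2] with z hz
      rw [mem_ball_zero_iff, Real.norm_eq_abs, abs_lt] at hz
      unfold za_rho
      rw [Real.smoothTransition.zero_of_nonpos (by linarith [hz.2])]
      ring
    exact contDiffAt_const.congr_of_eventuallyEq h1
  · have e1 : ContDiff ℝ (⊤ : ℕ∞) fun s : ℝ => Real.smoothTransition (16 * s - 1) :=
      Real.smoothTransition.contDiff.comp ((contDiff_const.mul contDiff_id).sub contDiff_const)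
    have e2 : ContDiff ℝ (⊤ : ℕ∞) fun s : ℝ => Real.smoothTransition (9 - s) :=
      Real.smoothTransition.contDiff.comp (contDiff_const.sub contDiff_id)
    have e3 : ContDiffAt ℝ (⊤ : ℕ∞) (fun s : ℝ => |s| ^ α) s :=
      (Real.contDiffAt_rpow_const_of_ne (abs_ne_zero.mpr hs)).comp s (contDiffAt_abs hs)
    exact (e1.contDiffAt.mul e2.contDiffAt).mul e3

theorem za_rho_bdd (α : ℝ) (M : ℕ) : ∃ C : ℝ, 0 ≤ C ∧ ∀ k ≤ M, ∀ s,
    ‖iteratedFDeriv ℝ k (za_rho α) s‖ ≤ C := by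
  have hc : HasCompactSupport (za_rho α) := by
    refine HasCompactSupport.intro (K := Icc 0 9) isCompact_Icc fun s hs => ?_
    rw [mem_Icc, not_and_or, not_le, not_le] at hs
    unfold za_rho
    rcases hs with hs | hs
    · rw [Real.smoothTransition.zero_of_nonpos (by linarith)]
      ring
    · rw [Real.smoothTransition.zero_of_nonpos (x := 9 - s) (by linarith)]
      ring
  have h1 : ∀ k : ℕ, ∃ C : ℝ, ∀ s, ‖iteratedFDeriv ℝ k (za_rho α) s‖ ≤ C := by
    intro k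
    refine Continuous.bounded_above_of_compact_support ?_ (hc.iteratedFDeriv k)
    exact (za_rho_smooth α).continuous_iteratedFDeriv (by exact_mod_cast le_top)
  choose c hc1 using h1
  refine ⟨∑ i ∈ Finset.range (M + 1), |c i|, Finset.sum_nonneg fun i _ => abs_nonneg _, ?_⟩
  intro k hk s
  refine (hc1 k s).trans ((le_abs_self _).trans ?_)
  exact Finset.single_le_sum (f := fun i => |c i|) (fun i _ => abs_nonneg _)
    (Finset.mem_range.mpr (by omega))

theorem za_comp {E F G : Type} [NormedAddCommGroup E] [NormedSpace ℝ E] [NormedAddCommGroup F]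
    [NormedSpace ℝ F] [NormedAddCommGroup G] [NormedSpace ℝ G] (g : E →L[ℝ] F) (hg : ‖g‖ ≤ 1)
    {f : F → G} (hf : ContDiff ℝ (⊤ : ℕ∞) f) (i : ℕ) (x : E) :
    ‖iteratedFDeriv ℝ i (fun x => f (g x)) x‖ ≤ ‖iteratedFDeriv ℝ i f (g x)‖ := by
  have h1 := ContinuousLinearMap.iteratedFDeriv_comp_right g hf x (i := i)
    (by exact_mod_cast le_top)
  rw [show (fun x => f (g x)) = f ∘ g from rfl, h1]
  refine (ContinuousMultilinearMap.norm_compContinuousLinearMap_le _ _).trans ?_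
  rw [Finset.prod_const]
  exact mul_le_of_le_one_right (norm_nonneg _) (pow_le_one₀ (norm_nonneg _) hg)

theorem za_choose {k M : ℕ} (hk : k ≤ M) {A B : ℝ} (hA : 0 ≤ A) (hB : 0 ≤ B) (x y : ℕ → ℝ)
    (hx0 : ∀ i, 0 ≤ x i) (hy0 : ∀ i, 0 ≤ y i)
    (hx : ∀ i ≤ M, x i ≤ A) (hy : ∀ i ≤ M, y i ≤ B) :
    ∑ i ∈ Finset.range (k + 1), (k.choose i : ℝ) * x i * y (k - i) ≤ 2 ^ M * (A * B) := by
  have h1 : ∑ i ∈ Finset.range (k + 1), (k.choose i : ℝ) * x i * y (k - i) ≤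
      ∑ i ∈ Finset.range (k + 1), (k.choose i : ℝ) * (A * B) := by
    refine Finset.sum_le_sum fun i hi => ?_
    have hi' := Finset.mem_range.mp hi
    rw [mul_assoc]
    refine mul_le_mul_of_nonneg_left ?_ (Nat.cast_nonneg _)
    exact mul_le_mul (hx i (by omega)) (hy _ (by omega)) (hy0 _) hA
  refine h1.trans ?_
  rw [← Finset.sum_mul]
  refine mul_le_mul_of_nonneg_right ?_ (mul_nonneg hA hB)
  have h2 : ∑ i ∈ Finset.range (k + 1), (k.choose i : ℝ) = 2 ^ k := by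
    exact_mod_cast Nat.sum_range_choose k
  rw [h2]
  exact pow_le_pow_right₀ (by norm_num) hk

theorem za_T_bdd (hCP : T_CP) (n M : ℕ) : ∃ C : ℝ, 0 ≤ C ∧ ∀ k ≤ M, ∀ (β v : EE n) (ε : ℝ)
    (q : EE n), ‖β‖ ≤ 3 → ‖v‖ ≤ 1 → 0 ≤ ε → ε ≤ 1 → ‖q‖ ≤ 1 / 4 →
    ‖iteratedFDeriv ℝ k (fun q => za_T n ((β, v, ε), q)) q‖ ≤ C := by
  have h1 : ∀ k : ℕ, ∃ C : ℝ, ∀ z ∈ ((closedBall (0 : EE n) 3 ×ˢ closedBall (0 : EE n) 1 ×ˢ
      Icc (0 : ℝ) 1) ×ˢ closedBall (0 : EE n) (1 / 4)),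
      ‖iteratedFDeriv ℝ k (fun q => za_T n (z.1, q)) z.2‖ ≤ C := by
    intro k
    refine hCP (EE n × EE n × ℝ) (EE n) ℝ k (za_T n) univ _ isOpen_univ
      (za_T_smooth n).contDiffOn ?_ (subset_univ _)
    exact ((isCompact_closedBall _ _).prod ((isCompact_closedBall _ _).prod isCompact_Icc)).prod
      (isCompact_closedBall _ _)
  choose c hc using h1
  refine ⟨∑ i ∈ Finset.range (M + 1), |c i|, Finset.sum_nonneg fun i _ => abs_nonneg _, ?_⟩
  intro k hk β v ε q hβ hv hε0 hε1 hq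
  refine (hc k ((β, v, ε), q) ?_).trans ((le_abs_self _).trans ?_)
  · exact ⟨⟨by simpa using hβ, by simpa using hv, hε0, hε1⟩, by simpa using hq⟩
  · exact Finset.single_le_sum (f := fun i => |c i|) (fun i _ => abs_nonneg _)
      (Finset.mem_range.mpr (by omega))

theorem za_b_smooth {n : ℕ} {L : ℝ} (hL : 1 ≤ L) {v : EE n} (hv : ‖v‖ = 1) (ζ : EE n) :
    ContDiff ℝ (⊤ : ℕ∞) (fun q : EE n => zk n L (ζ + (1 / L) • q) v) := by
  have e1 : ContDiff ℝ (⊤ : ℕ∞) fun q : EE n => ζ + (1 / L) • q := by fun_prop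
  exact (za_zk_smooth hL hv).comp e1

theorem za_b_bdd (hCP : T_CP) {n : ℕ} (hn : 1 ≤ n) (M : ℕ) : ∃ C : ℝ, 0 ≤ C ∧ ∀ k ≤ M,
    ∀ (L : ℝ) (v ζ q : EE n), 1 ≤ L → ‖v‖ = 1 → ‖ζ‖ = 1 → ‖q‖ ≤ 1 / 4 →
    ‖iteratedFDeriv ℝ k (fun q => zk n L (ζ + (1 / L) • q) v) q‖ ≤ C * L ^ (n - 1) := by
  obtain ⟨C, hC0, hC⟩ := za_T_bdd hCP n M
  refine ⟨|bc n| * C, by positivity, fun k hk L v ζ q hL hv hζ hq => ?_⟩
  have hL0 : 0 < L := by linarith
  have hLn : 0 < L ^ (n - 1) := pow_pos hL0 _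
  have hb : ball (0 : EE n) 0.3 ∈ nhds q :=
    isOpen_ball.mem_nhds (by rw [mem_ball_zero_iff]; linarith)
  by_cases hβ : 3 < L * ‖v - ζ‖
  · have h1 : (fun q => zk n L (ζ + (1 / L) • q) v) =ᶠ[nhds q] fun _ => (0 : ℝ) := by
      filter_upwards [hb] with q' hq'
      rw [mem_ball_zero_iff] at hq'
      exact za_far hL hv hζ hq'.le hβ
    have h2 := (h1.iteratedFDeriv ℝ k).eq_of_nhds
    rw [h2]
    have h3 : iteratedFDeriv ℝ k (fun _ : EE n => (0 : ℝ)) = 0 := iteratedFDeriv_zero_fun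
    rw [h3]
    simp only [Pi.zero_apply, norm_zero]
    positivity
  · have h1 : (fun q => zk n L (ζ + (1 / L) • q) v) =ᶠ[nhds q]
        fun q => (bc n * L ^ (n - 1)) • za_T n ((L • (v - ζ), v, 1 / L), q) := by
      filter_upwards [hb] with q' hq'
      rw [mem_ball_zero_iff] at hq'
      rw [smul_eq_mul]
      exact za_near hn hL hv hζ hq'.le
    have h2 := (h1.iteratedFDeriv ℝ k).eq_of_nhds
    have hs : ContDiff ℝ (⊤ : ℕ∞) fun q => za_T n ((L • (v - ζ), v, 1 / L), q) := by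
      have e1 : ContDiff ℝ (⊤ : ℕ∞) fun q : EE n => (((L • (v - ζ), v, 1 / L) :
        EE n × EE n × ℝ), q) := by fun_prop
      exact (za_T_smooth n).comp e1
    have h3 := iteratedFDeriv_const_smul_apply' (𝕜 := ℝ) (i := k) (x := q)
      (a := bc n * L ^ (n - 1)) (f := fun q => za_T n ((L • (v - ζ), v, 1 / L), q))
      (hs.contDiffAt.of_le (by exact_mod_cast le_top))
    rw [h2, h3, norm_smul, Real.norm_eq_abs, abs_mul, abs_of_pos hLn]
    have h4 := hC k hk (L • (v - ζ)) v (1 / L) q ?_ hv.le (by positivity)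
      (by rw [div_le_one hL0]; exact hL) hq
    · calc |bc n| * L ^ (n - 1) *
            ‖iteratedFDeriv ℝ k (fun q => za_T n ((L • (v - ζ), v, 1 / L), q)) q‖ ≤
          |bc n| * L ^ (n - 1) * C := mul_le_mul_of_nonneg_left h4 (by positivity)
        _ = _ := by ring
    · rw [norm_smul, Real.norm_of_nonneg hL0.le]
      exact not_lt.mp hβ

theorem pf_za (hCP : T_CP) : T_ZA := by
  intro n M hn
  obtain ⟨Cb, hCb0, hCb⟩ := za_b_bdd hCP (n := n) (by omega) M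
  obtain ⟨Cr, hCr0, hCr⟩ := za_rho_bdd (((n : ℝ) - 1) / 2) M
  refine ⟨M, 2 ^ M * (Cb * (2 ^ M * Cr)), fun χ B L v hχ hL hv => ?_⟩
  have hB : 0 ≤ B := by
    have h := hχ.2.2 0 (Nat.zero_le _) 0
    exact (norm_nonneg _).trans h
  have hL0 : 0 < L := by linarith
  have hLn : 0 < L ^ (n - 1) := pow_pos hL0 _
  have hfun : ∀ (b : EE n → ℝ), (fun q : ℝ × EE n =>
      χ q.1 * (((|q.1|) ^ (((n : ℝ) - 1) / 2) : ℝ) : ℂ) * ((b q.2 : ℝ) : ℂ)) =
      fun q => b q.2 • (za_rho (((n : ℝ) - 1) / 2) q.1 • χ q.1) := by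
    intro b
    funext q
    rw [Complex.real_smul, Complex.real_smul]
    by_cases hq : χ q.1 = 0
    · rw [hq]
      ring
    · have h1 := hχ.2.1 q.1 hq
      rw [za_rho_eq h1.1 h1.2]
      ring
  have ha : ContDiff ℝ (⊤ : ℕ∞) fun s => za_rho (((n : ℝ) - 1) / 2) s • χ s :=
    (za_rho_smooth _).smul hχ.1
  have hab : ∀ k ≤ M, ∀ s, ‖iteratedFDeriv ℝ k
      (fun s => za_rho (((n : ℝ) - 1) / 2) s • χ s) s‖ ≤ 2 ^ M * (Cr * B) := by
    intro k hk s
    refine (norm_iteratedFDeriv_smul_le (za_rho_smooth _) hχ.1 s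
      (n := k) (by exact_mod_cast le_top)).trans ?_
    refine za_choose hk hCr0 hB
      (fun i => ‖iteratedFDeriv ℝ i (za_rho (((n : ℝ) - 1) / 2)) s‖)
      (fun i => ‖iteratedFDeriv ℝ i χ s‖) (fun i => norm_nonneg _) (fun i => norm_nonneg _)
      (fun i hi => hCr i hi s) fun i hi => ?_
    rw [norm_iteratedFDeriv_eq_norm_iteratedDeriv]
    exact hχ.2.2 i hi s
  refine ⟨?_, ?_, ?_⟩
  · rw [hfun (fun x => zk n L x v)]
    exact ((za_zk_smooth hL hv).comp contDiff_snd).smul (ha.comp contDiff_fst)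
  · intro q hq
    refine hχ.2.1 q.1 fun h => hq ?_
    simp only
    rw [h]
    ring
  · intro ζ hζ k hk q hq
    have h0 : (fun q : ℝ × EE n => (fun q : ℝ × EE n =>
        χ q.1 * (((|q.1|) ^ (((n : ℝ) - 1) / 2) : ℝ) : ℂ) * ((zk n L q.2 v : ℝ) : ℂ))
        (q.1, ζ + (1 / L) • q.2)) =
        fun q => (zk n L (ζ + (1 / L) • q.2) v) •
          (za_rho (((n : ℝ) - 1) / 2) q.1 • χ q.1) :=
      hfun (fun x => zk n L (ζ + (1 / L) • x) v)
    rw [h0]
    have s1 : ContDiff ℝ (⊤ : ℕ∞) fun q : ℝ × EE n => zk n L (ζ + (1 / L) • q.2) v :=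
      (za_b_smooth hL hv ζ).comp contDiff_snd
    have s2 : ContDiff ℝ (⊤ : ℕ∞) fun q : ℝ × EE n =>
        za_rho (((n : ℝ) - 1) / 2) q.1 • χ q.1 := ha.comp contDiff_fst
    refine (norm_iteratedFDeriv_smul_le s1 s2 q (n := k) (by exact_mod_cast le_top)).trans ?_
    have hfin := za_choose hk (A := Cb * L ^ (n - 1)) (B := 2 ^ M * (Cr * B)) (by positivity)
      (by positivity)
      (fun i => ‖iteratedFDeriv ℝ i (fun q : ℝ × EE n => zk n L (ζ + (1 / L) • q.2) v) q‖)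
      (fun i => ‖iteratedFDeriv ℝ i (fun q : ℝ × EE n =>
        za_rho (((n : ℝ) - 1) / 2) q.1 • χ q.1) q‖)
      (fun i => norm_nonneg _) (fun i => norm_nonneg _) ?_ ?_
    · refine hfin.trans (le_of_eq ?_)
      ring
    · intro i hi
      refine (za_comp (ContinuousLinearMap.snd ℝ ℝ (EE n))
        (ContinuousLinearMap.norm_snd_le ℝ ℝ (EE n)) (za_b_smooth hL hv ζ) i q).trans ?_
      exact hCb i hi L v ζ q.2 hL hv hζ hq
    · intro i hi
      refine (za_comp (ContinuousLinearMap.fst ℝ ℝ (EE n))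
        (ContinuousLinearMap.norm_fst_le ℝ ℝ (EE n)) ha i q).trans ?_
      exact hab i hi q.1

end Pool.Agent.H86.AR
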