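import Pool.Agent.H93.AR.Defs
import Pool.Agent.H54.LS.AVG

/-! # Common lemmas for the modules AC and AM -/

set_option autoImplicit false

namespace Pool.Agent.H86.AR

open MeasureTheory Set FourierTransform Pool.Agent.H83.LS Pool.Agent.H54.LS Pool.Agent.H93.AR
open scoped ENNReal NNReal SchwartzMap

theorem sp_norm {n : ℕ} (w : Sp n) : ‖(w : EE n)‖ = 1 := by
  have := w.2
  rwa [mem_sphere_zero_iff_norm] at this

/-- the first argument of the kernel -/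
noncomputable def dir {n : ℕ} (x : EE (n + 1)) : EE n := (hor x)⁻¹ • pr x

theorem dir_cases {n : ℕ} (x : EE (n + 1)) : dir x = 0 ∨ ‖dir x‖ = 1 := by
  rcases eq_or_ne (hor x) 0 with h | h
  · left
    rw [dir, h, inv_zero, zero_smul]
  · right
    rw [dir, norm_smul, ← hor_eq, norm_inv, Real.norm_of_nonneg (hor_nonneg x),
      inv_mul_cancel₀ h]

theorem hor_jo_smul {n : ℕ} {r : ℝ} (hr : 0 ≤ r) (w : Sp n) (z : ℝ) :
    hor (jo (r • (w : EE n)) z) = r := by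
  rw [hor_jo, norm_smul, sp_norm, mul_one, Real.norm_of_nonneg hr]

theorem dir_jo_smul {n : ℕ} {r : ℝ} (hr : 0 < r) (w : Sp n) (z : ℝ) :
    dir (jo (r • (w : EE n)) z) = (w : EE n) := by
  rw [dir, hor_jo_smul hr.le, pr_jo, smul_smul, inv_mul_cancel₀ hr.ne', one_smul]

theorem measurable_dir {n : ℕ} : Measurable (dir : EE (n + 1) → EE n) := by
  unfold dir
  exact (continuous_hor.measurable.inv).smul continuous_pr.measurable

theorem zk_meas (hZB : T_ZB) {n : ℕ} {L : ℝ} (hn : 1 ≤ n) (hL : 1 ≤ L) :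
    Measurable fun q : EE n × EE n => zk n L q.1 q.2 := by
  obtain ⟨C, hC⟩ := hZB n hn
  exact (hC L hL).1

theorem zk_nonneg (hZB : T_ZB) {n : ℕ} {L : ℝ} (hn : 1 ≤ n) (hL : 1 ≤ L) (u v : EE n) :
    0 ≤ zk n L u v := by
  obtain ⟨C, hC⟩ := hZB n hn
  exact (hC L hL).2.2.1 u v

theorem zk_symm (hZB : T_ZB) {n : ℕ} {L : ℝ} (hn : 1 ≤ n) (hL : 1 ≤ L) {u v : EE n}
    (hu : ‖u‖ = 1) (hv : ‖v‖ = 1) : zk n L u v = zk n L v u := by
  obtain ⟨C, hC⟩ := hZB n hn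
  exact (hC L hL).2.2.2.2.1 u v hu hv

theorem zk_meas' (hZB : T_ZB) {n : ℕ} {L : ℝ} (hn : 1 ≤ n) (hL : 1 ≤ L) (u : EE n) :
    Measurable fun w : Sp n => zk n L u (w : EE n) := by
  have h1 : Measurable fun w : Sp n => (u, (w : EE n)) :=
    measurable_const.prodMk measurable_subtype_coe
  have h2 := (zk_meas hZB hn hL).comp h1
  exact h2

theorem zk_integrable (hZN : T_ZN) (hZB : T_ZB) {n : ℕ} {L : ℝ} (hn : 1 ≤ n) (hL : 1 ≤ L)
    {u : EE n} (hu : u = 0 ∨ ‖u‖ = 1) :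
    Integrable (fun w : Sp n => zk n L u (w : EE n)) (sg n) := by
  refine ⟨(zk_meas' hZB hn hL u).aestronglyMeasurable, ?_⟩
  have h := hasFiniteIntegral_iff_ofReal (μ := sg n) (f := fun w : Sp n => zk n L u (w : EE n))
    (Filter.Eventually.of_forall fun w => zk_nonneg hZB hn hL u w)
  rw [h, hZN n L u hn hL hu]
  exact ENNReal.one_lt_top

theorem zk_integral (hZN : T_ZN) (hZB : T_ZB) {n : ℕ} {L : ℝ} (hn : 1 ≤ n) (hL : 1 ≤ L)
    {u : EE n} (hu : u = 0 ∨ ‖u‖ = 1) : ∫ w : Sp n, zk n L u (w : EE n) ∂(sg n) = 1 := by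
  have h := integral_eq_lintegral_of_nonneg_ae (μ := sg n)
    (f := fun w : Sp n => zk n L u (w : EE n))
    (Filter.Eventually.of_forall fun w => zk_nonneg hZB hn hL u w)
    (zk_meas' hZB hn hL u).aestronglyMeasurable
  rw [h, hZN n L u hn hL hu]
  simp

theorem zk_integral_c (hZN : T_ZN) (hZB : T_ZB) {n : ℕ} {L : ℝ} (hn : 1 ≤ n) (hL : 1 ≤ L)
    {u : EE n} (hu : u = 0 ∨ ‖u‖ = 1) :
    ∫ w : Sp n, ((zk n L u (w : EE n) : ℝ) : ℂ) ∂(sg n) = 1 := by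
  have h := integral_ofReal (𝕜 := ℂ) (μ := sg n) (f := fun w : Sp n => zk n L u (w : EE n))
  rw [zk_integral hZN hZB hn hL hu] at h
  simpa using h

theorem AL_def {n : ℕ} (L : ℝ) (f : EE (n + 1) → ℂ) (x : EE (n + 1)) :
    AL L f x = ∫ w : Sp n, ((zk n L (dir x) (w : EE n) : ℝ) : ℂ) *
      f (jo (hor x • (w : EE n)) (x (Fin.last n))) ∂(sg n) := rfl

theorem AL_jo {n : ℕ} (L : ℝ) (f : EE (n + 1) → ℂ) {r : ℝ} (hr : 0 < r) (w : Sp n) (z : ℝ) :
    AL L f (jo (r • (w : EE n)) z) = ∫ w' : Sp n, ((zk n L (w : EE n) (w' : EE n) : ℝ) : ℂ) *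
      f (jo (r • (w' : EE n)) z) ∂(sg n) := by
  rw [AL_def, dir_jo_smul hr, hor_jo_smul hr.le, jo_last]

end Pool.Agent.H86.AR
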