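import Pool.Agent.H86.AR.Base

/-! # AM: elementary properties of the angular average -/

set_option autoImplicit false

namespace Pool.Agent.H86.AR

open MeasureTheory Set FourierTransform Pool.Agent.H83.LS Pool.Agent.H54.LS Pool.Agent.H93.AR
open scoped ENNReal NNReal SchwartzMap

theorem meas_pt {n : ℕ} (f : EE (n + 1) → ℂ) (hf : Measurable f) :
    Measurable fun q : EE (n + 1) × Sp n => f (jo (hor q.1 • (q.2 : EE n)) (q.1 (Fin.last n))) := by
  have h1 : Measurable fun q : EE (n + 1) × Sp n => hor q.1 :=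
    continuous_hor.measurable.comp measurable_fst
  have h2 : Measurable fun q : EE (n + 1) × Sp n => (q.2 : EE n) :=
    measurable_subtype_coe.comp measurable_snd
  have h3 : Measurable fun q : EE (n + 1) × Sp n => q.1 (Fin.last n) := by
    have h4 : Measurable fun x : EE (n + 1) => x (Fin.last n) := by fun_prop
    exact h4.comp measurable_fst
  have h5 : Measurable fun q : EE (n + 1) × Sp n => (hor q.1 • (q.2 : EE n), q.1 (Fin.last n)) :=
    (h1.smul h2).prodMk h3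
  exact hf.comp (continuous_jo.measurable.comp h5)

theorem meas_zk (hZB : T_ZB) {n : ℕ} {L : ℝ} (hn : 1 ≤ n) (hL : 1 ≤ L) :
    Measurable fun q : EE (n + 1) × Sp n => zk n L (dir q.1) (q.2 : EE n) := by
  have h1 : Measurable fun q : EE (n + 1) × Sp n => (dir q.1, (q.2 : EE n)) :=
    (measurable_dir.comp measurable_fst).prodMk (measurable_subtype_coe.comp measurable_snd)
  have h2 := (zk_meas hZB hn hL).comp h1
  exact h2

theorem meas_pt' {n : ℕ} (f : EE (n + 1) → ℂ) (hf : Measurable f) (x : EE (n + 1)) :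
    Measurable fun w : Sp n => f (jo (hor x • (w : EE n)) (x (Fin.last n))) := by
  have h1 : Measurable fun w : Sp n => (x, w) := measurable_const.prodMk measurable_id
  have h2 := (meas_pt f hf).comp h1
  exact h2

theorem AL_meas (hZB : T_ZB) {n : ℕ} {L : ℝ} (hn : 1 ≤ n) (hL : 1 ≤ L)
    (f : EE (n + 1) → ℂ) (hf : Measurable f) : Measurable (AL L f) := by
  have h : Measurable fun q : EE (n + 1) × Sp n =>
      ((zk n L (dir q.1) (q.2 : EE n) : ℝ) : ℂ) *
        f (jo (hor q.1 • (q.2 : EE n)) (q.1 (Fin.last n))) :=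
    (Complex.measurable_ofReal.comp (meas_zk hZB hn hL)).mul (meas_pt f hf)
  exact (h.stronglyMeasurable.integral_prod_right (ν := sg n)).measurable

theorem AL_int (hZN : T_ZN) (hZB : T_ZB) {n : ℕ} {L : ℝ} (hn : 1 ≤ n) (hL : 1 ≤ L)
    (f : EE (n + 1) → ℂ) (hf : Measurable f) {A : ℝ} (hA : ∀ x, ‖f x‖ ≤ A) (x : EE (n + 1)) :
    Integrable (fun w : Sp n => ((zk n L (dir x) (w : EE n) : ℝ) : ℂ) *
      f (jo (hor x • (w : EE n)) (x (Fin.last n)))) (sg n) :=
  Integrable.mul_bdd (c := A) (zk_integrable hZN hZB hn hL (dir_cases x)).ofReal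
    (meas_pt' f hf x).aestronglyMeasurable (Filter.Eventually.of_forall fun w => hA _)

theorem AL_pow (hZN : T_ZN) (hZB : T_ZB) {n : ℕ} {L : ℝ} (hn : 1 ≤ n) (hL : 1 ≤ L)
    (f : EE (n + 1) → ℂ) (hf : Measurable f) {p : ℝ} (hp : 1 ≤ p) (x : EE (n + 1)) :
    ‖AL L f x‖ₑ ^ p ≤ ∫⁻ w : Sp n, ENNReal.ofReal (zk n L (dir x) (w : EE n)) *
      ‖f (jo (hor x • (w : EE n)) (x (Fin.last n)))‖ₑ ^ p ∂(sg n) := by
  set k : Sp n → ℝ≥0∞ := fun w => ENNReal.ofReal (zk n L (dir x) (w : EE n)) with hk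
  have hkm : Measurable k := (zk_meas' hZB hn hL (dir x)).ennreal_ofReal
  set g : Sp n → ℝ≥0∞ := fun w => ‖f (jo (hor x • (w : EE n)) (x (Fin.last n)))‖ₑ with hg
  have hgm : Measurable g := (meas_pt' f hf x).enorm
  set μ : Measure (Sp n) := (sg n).withDensity k with hμ
  have hμ1 : μ univ = 1 := by
    rw [hμ, withDensity_apply _ MeasurableSet.univ, Measure.restrict_univ]
    exact hZN n L (dir x) hn hL (dir_cases x)
  have : IsFiniteMeasure μ := ⟨by rw [hμ1]; exact ENNReal.one_lt_top⟩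
  have h1 : ‖AL L f x‖ₑ ≤ ∫⁻ w, g w ∂μ := by
    rw [hμ, lintegral_withDensity_eq_lintegral_mul _ hkm hgm, AL_def]
    refine (enorm_integral_le_lintegral_enorm _).trans (lintegral_mono fun w => ?_)
    rw [enorm_mul, Pi.mul_apply]
    refine mul_le_mul_left ?_ _
    rw [hk]
    simp only
    rw [← ofReal_norm, Complex.norm_real, Real.norm_of_nonneg (zk_nonneg hZB hn hL _ _)]
  have h2 := lint_rpow_le μ g hgm.aemeasurable p hp
  rw [hμ1, ENNReal.one_rpow, one_mul] at h2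
  calc ‖AL L f x‖ₑ ^ p ≤ (∫⁻ w, g w ∂μ) ^ p := ENNReal.rpow_le_rpow h1 (by linarith)
    _ ≤ ∫⁻ w, g w ^ p ∂μ := h2
    _ = ∫⁻ w, k w * g w ^ p ∂(sg n) := by
      rw [hμ, lintegral_withDensity_eq_lintegral_mul _ hkm (hgm.pow_const p)]
      rfl

theorem AL_lp (hZN : T_ZN) (hZB : T_ZB) {n : ℕ} {L : ℝ} (hn : 1 ≤ n) (hL : 1 ≤ L)
    (f : EE (n + 1) → ℂ) (hf : Measurable f) {p : ℝ} (hp : 1 ≤ p) :
    ∫⁻ x, ‖AL L f x‖ₑ ^ p ≤ ∫⁻ x, ‖f x‖ₑ ^ p := by
  have hm1 : Measurable fun q : EE (n + 1) × Sp n =>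
      ENNReal.ofReal (zk n L (dir q.1) (q.2 : EE n)) *
        ‖f (jo (hor q.1 • (q.2 : EE n)) (q.1 (Fin.last n)))‖ₑ ^ p :=
    (meas_zk hZB hn hL).ennreal_ofReal.mul ((meas_pt f hf).enorm.pow_const p)
  set G : EE (n + 1) → ℝ≥0∞ := fun x => ∫⁻ w : Sp n, ENNReal.ofReal (zk n L (dir x) (w : EE n)) *
      ‖f (jo (hor x • (w : EE n)) (x (Fin.last n)))‖ₑ ^ p ∂(sg n) with hG
  have hGm : Measurable G := hm1.lintegral_prod_right'
  have h1 : ∫⁻ x, ‖AL L f x‖ₑ ^ p ≤ ∫⁻ x, G x :=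
    lintegral_mono fun x => AL_pow hZN hZB hn hL f hf hp x
  refine h1.trans (le_of_eq ?_)
  have hfp : Measurable fun x : EE (n + 1) => ‖f x‖ₑ ^ p := hf.enorm.pow_const p
  have hjm : Measurable fun q : Sp n × (Ioi (0 : ℝ) × ℝ) => jo ((q.2.1 : ℝ) • (q.1 : EE n)) q.2.2 :=
    (mp_cyl n hn).measurable
  rw [← (mp_cyl n hn).lintegral_comp hGm, ← (mp_cyl n hn).lintegral_comp hfp]
  -- the kernel in cylindrical coordinates
  have e1 : ∀ q : Sp n × (Ioi (0 : ℝ) × ℝ), G (jo ((q.2.1 : ℝ) • (q.1 : EE n)) q.2.2) =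
      ∫⁻ w : Sp n, ENNReal.ofReal (zk n L (q.1 : EE n) (w : EE n)) *
        ‖f (jo ((q.2.1 : ℝ) • (w : EE n)) q.2.2)‖ₑ ^ p ∂(sg n) := by
    intro q
    have hr : (0 : ℝ) < q.2.1 := q.2.1.2
    rw [hG]
    simp only
    rw [dir_jo_smul hr, hor_jo_smul hr.le, jo_last]
  simp only [e1]
  -- measurability of the integrand
  have hF : Measurable fun r : (Sp n × (Ioi (0 : ℝ) × ℝ)) × Sp n =>
      ENNReal.ofReal (zk n L (r.1.1 : EE n) (r.2 : EE n)) *
        ‖f (jo ((r.1.2.1 : ℝ) • (r.2 : EE n)) r.1.2.2)‖ₑ ^ p := by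
    have a1 : Measurable fun r : (Sp n × (Ioi (0 : ℝ) × ℝ)) × Sp n =>
        ((r.1.1 : EE n), (r.2 : EE n)) :=
      (measurable_subtype_coe.comp (measurable_fst.comp measurable_fst)).prodMk
        (measurable_subtype_coe.comp measurable_snd)
    have a2 := ((zk_meas hZB hn hL).comp a1).ennreal_ofReal
    have a3 : Measurable fun r : (Sp n × (Ioi (0 : ℝ) × ℝ)) × Sp n => (r.2, r.1.2) :=
      measurable_snd.prodMk (measurable_snd.comp measurable_fst)
    have a4 := hfp.comp (hjm.comp a3)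
    exact a2.mul a4
  have hFm : Measurable fun q : Sp n × (Ioi (0 : ℝ) × ℝ) =>
      ∫⁻ w : Sp n, ENNReal.ofReal (zk n L (q.1 : EE n) (w : EE n)) *
        ‖f (jo ((q.2.1 : ℝ) • (w : EE n)) q.2.2)‖ₑ ^ p ∂(sg n) := hF.lintegral_prod_right'
  have hRm : Measurable fun q : Sp n × (Ioi (0 : ℝ) × ℝ) =>
      ‖f (jo ((q.2.1 : ℝ) • (q.1 : EE n)) q.2.2)‖ₑ ^ p := by
    have h := hfp.comp hjm
    exact h
  rw [lintegral_prod_symm _ hFm.aemeasurable, lintegral_prod_symm _ hRm.aemeasurable]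
  refine lintegral_congr fun s => ?_
  dsimp only
  have hswap : Measurable fun r : Sp n × Sp n =>
      ENNReal.ofReal (zk n L (r.1 : EE n) (r.2 : EE n)) *
        ‖f (jo ((s.1 : ℝ) • (r.2 : EE n)) s.2)‖ₑ ^ p := by
    have a1 : Measurable fun r : Sp n × Sp n => ((r.1, s), r.2) :=
      (measurable_fst.prodMk measurable_const).prodMk measurable_snd
    have a2 := hF.comp a1
    exact a2
  rw [lintegral_lintegral_swap hswap.aemeasurable]
  refine lintegral_congr fun w => ?_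
  have hkm : Measurable fun w' : Sp n => ENNReal.ofReal (zk n L (w' : EE n) (w : EE n)) := by
    have a1 : Measurable fun w' : Sp n => ((w' : EE n), (w : EE n)) :=
      measurable_subtype_coe.prodMk measurable_const
    have a2 := ((zk_meas hZB hn hL).comp a1).ennreal_ofReal
    exact a2
  rw [lintegral_mul_const _ hkm]
  have e2 : ∫⁻ w' : Sp n, ENNReal.ofReal (zk n L (w' : EE n) (w : EE n)) ∂(sg n) = 1 := by
    rw [← hZN n L (w : EE n) hn hL (Or.inr (sp_norm w))]
    refine lintegral_congr fun w' => ?_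
    rw [zk_symm hZB hn hL (sp_norm w') (sp_norm w)]
  rw [e2, one_mul]

theorem pf_am (hZN : T_ZN) (hZB : T_ZB) : T_AM := by
  intro n L hn hL
  refine ⟨fun f hf => AL_meas hZB hn hL f hf, ?_, fun f p hf hp => AL_lp hZN hZB hn hL f hf hp,
    ?_, ?_, ?_⟩
  · intro f A hf hA x
    rw [AL_def]
    have h1 : Integrable (fun w : Sp n => zk n L (dir x) (w : EE n) * A) (sg n) :=
      (zk_integrable hZN hZB hn hL (dir_cases x)).mul_const A
    have h2 := norm_integral_le_of_norm_le (μ := sg n)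
      (f := fun w : Sp n => ((zk n L (dir x) (w : EE n) : ℝ) : ℂ) *
        f (jo (hor x • (w : EE n)) (x (Fin.last n)))) h1
      (Filter.Eventually.of_forall fun w => by
        rw [norm_mul, Complex.norm_real, Real.norm_of_nonneg (zk_nonneg hZB hn hL _ _)]
        exact mul_le_mul_of_nonneg_left (hA _) (zk_nonneg hZB hn hL _ _))
    rw [integral_mul_const, zk_integral hZN hZB hn hL (dir_cases x), one_mul] at h2
    exact h2
  · intro f hf hfi
    refine ⟨(AL_meas hZB hn hL f hf).aestronglyMeasurable, ?_⟩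
    have h := AL_lp hZN hZB hn hL f hf (le_refl (1 : ℝ))
    simp only [ENNReal.rpow_one] at h
    exact h.trans_lt hfi.2
  · intro f c x
    rw [AL_def, AL_def, ← integral_const_mul]
    apply integral_congr_ae
    refine Filter.Eventually.of_forall fun w => ?_
    simp only [hor_jo_smul (hor_nonneg x), jo_last]
    ring
  · rintro f g hf hg ⟨A, hA⟩ ⟨B, hB⟩ x
    rw [AL_def, AL_def, AL_def, ← integral_sub (AL_int hZN hZB hn hL f hf hA x)
      (AL_int hZN hZB hn hL g hg hB x)]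
    apply integral_congr_ae
    exact Filter.Eventually.of_forall fun w => by simp only []; ring

end Pool.Agent.H86.AR
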