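import Pool.Agent.H86.AR.Base

/-! # AC: angular averages commute -/

set_option autoImplicit false

namespace Pool.Agent.H86.AR

open MeasureTheory Set FourierTransform Pool.Agent.H83.LS Pool.Agent.H54.LS Pool.Agent.H93.AR
open scoped ENNReal NNReal SchwartzMap

theorem AL_zero (hZN : T_ZN) (hZB : T_ZB) {n : ℕ} {L : ℝ} (hn : 1 ≤ n) (hL : 1 ≤ L)
    (f : EE (n + 1) → ℂ) {x : EE (n + 1)} (hx : hor x = 0) : AL L f x = f x := by
  have hp : pr x = 0 := by
    rw [← norm_eq_zero, ← hor_eq, hx]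
  have hd : dir x = 0 := by
    rw [dir, hp, smul_zero]
  have hjo : jo (0 : EE n) (x (Fin.last n)) = x := by
    conv_rhs => rw [← jo_pr x, hp]
  rw [AL_def, hd, hx]
  simp only [zero_smul, hjo]
  rw [integral_mul_const, zk_integral_c hZN hZB hn hL (Or.inl rfl), one_mul]

theorem AL_AL (hZB : T_ZB) {n : ℕ} {L L' : ℝ} (hn : 1 ≤ n) (hL : 1 ≤ L) (hL' : 1 ≤ L')
    (f : EE (n + 1) → ℂ) (hf : Measurable f) {A : ℝ} (hA : ∀ x, ‖f x‖ ≤ A) {x : EE (n + 1)}
    (hx : 0 < hor x) (hdx : ‖dir x‖ = 1) :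
    AL L (AL L' f) x = ∫ w' : Sp n, (∫ w : Sp n, ((zk n L (dir x) (w : EE n) : ℝ) : ℂ) *
      ((zk n L' (w : EE n) (w' : EE n) : ℝ) : ℂ) ∂(sg n)) *
        f (jo (hor x • (w' : EE n)) (x (Fin.last n))) ∂(sg n) := by
  obtain ⟨C, hC⟩ := hZB n hn
  have hb1 := (hC L hL).2.2.2.1
  have hb2 := (hC L' hL').2.2.2.1
  have hn1 := (hC L hL).2.2.1
  have hn2 := (hC L' hL').2.2.1
  rw [AL_def]
  have e1 : ∀ w : Sp n, ((zk n L (dir x) (w : EE n) : ℝ) : ℂ) *
      AL L' f (jo (hor x • (w : EE n)) (x (Fin.last n))) =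
      ∫ w' : Sp n, ((zk n L (dir x) (w : EE n) : ℝ) : ℂ) *
        ((zk n L' (w : EE n) (w' : EE n) : ℝ) : ℂ) *
        f (jo (hor x • (w' : EE n)) (x (Fin.last n))) ∂(sg n) := by
    intro w
    rw [AL_jo L' f hx, ← integral_const_mul]
    apply integral_congr_ae
    exact Filter.Eventually.of_forall fun w' => by simp only []; ring
  simp only [e1]
  have hm1 : Measurable fun q : Sp n × Sp n => zk n L (dir x) (q.1 : EE n) :=
    (zk_meas' hZB hn hL (dir x)).comp measurable_fst
  have hm2 : Measurable fun q : Sp n × Sp n => zk n L' (q.1 : EE n) (q.2 : EE n) := by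
    have h1 : Measurable fun q : Sp n × Sp n => ((q.1 : EE n), (q.2 : EE n)) :=
      (measurable_subtype_coe.comp measurable_fst).prodMk
        (measurable_subtype_coe.comp measurable_snd)
    have h2 := (zk_meas hZB hn hL').comp h1
    exact h2
  have hm3 : Measurable fun q : Sp n × Sp n =>
      f (jo (hor x • (q.2 : EE n)) (x (Fin.last n))) := by
    have h0 : Measurable fun q : Sp n × Sp n => hor x • (q.2 : EE n) :=
      (measurable_const_smul (hor x)).comp (measurable_subtype_coe.comp measurable_snd)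
    have h1 : Measurable fun q : Sp n × Sp n => (hor x • (q.2 : EE n), x (Fin.last n)) :=
      h0.prodMk measurable_const
    exact hf.comp (continuous_jo.measurable.comp h1)
  rw [integral_integral_swap]
  · apply integral_congr_ae
    exact Filter.Eventually.of_forall fun w' => by simp only [integral_mul_const]
  · refine Integrable.of_bound (C := C * L ^ (n - 1) * (C * L' ^ (n - 1)) * A) ?_ ?_
    · have h4 : Measurable fun q : Sp n × Sp n => ((zk n L (dir x) (q.1 : EE n) : ℝ) : ℂ) *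
          ((zk n L' (q.1 : EE n) (q.2 : EE n) : ℝ) : ℂ) *
          f (jo (hor x • (q.2 : EE n)) (x (Fin.last n))) :=
        ((Complex.measurable_ofReal.comp hm1).mul (Complex.measurable_ofReal.comp hm2)).mul hm3
      exact h4.aestronglyMeasurable
    · refine Filter.Eventually.of_forall fun q => ?_
      simp only [Function.uncurry, norm_mul, Complex.norm_real, Real.norm_eq_abs,
        abs_of_nonneg (hn1 _ _), abs_of_nonneg (hn2 _ _)]
      have a1 := hb1 (dir x) (q.1 : EE n) hdx (sp_norm q.1)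
      have a2 := hb2 (q.1 : EE n) (q.2 : EE n) (sp_norm q.1) (sp_norm q.2)
      have a3 := hn1 (dir x) (q.1 : EE n)
      have a4 := hn2 (q.1 : EE n) (q.2 : EE n)
      exact mul_le_mul (mul_le_mul a1 a2 a4 (a3.trans a1)) (hA _) (norm_nonneg _)
        (mul_nonneg (a3.trans a1) (a4.trans a2))

theorem pf_ac (hZC : T_ZC) (hZB : T_ZB) (hZN : T_ZN) : T_AC := by
  rintro n L L' f hn hL hL' hf ⟨A, hA⟩ x
  rcases (hor_nonneg x).eq_or_lt with h0 | hx
  · rw [AL_zero hZN hZB hn hL _ h0.symm, AL_zero hZN hZB hn hL' _ h0.symm,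
      AL_zero hZN hZB hn hL' _ h0.symm, AL_zero hZN hZB hn hL _ h0.symm]
  · have hdx : ‖dir x‖ = 1 := by
      rcases dir_cases x with h | h
      · exfalso
        rw [dir, smul_eq_zero, inv_eq_zero] at h
        rcases h with h | h
        · exact hx.ne' h
        · rw [hor_eq, h, norm_zero] at hx
          exact lt_irrefl _ hx
      · exact h
    rw [AL_AL hZB hn hL hL' f hf hA hx hdx, AL_AL hZB hn hL' hL f hf hA hx hdx]
    apply integral_congr_ae
    refine Filter.Eventually.of_forall fun w' => ?_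
    obtain ⟨C, hC⟩ := hZB n hn
    have h1 := (hC L hL).2.2.2.2
    have h2 := (hC L' hL').2.2.2.2
    have key := hZC n (fun u v => ((zk n L u v : ℝ) : ℂ)) (fun u v => ((zk n L' u v : ℝ) : ℂ)) hn
      (fun Q u v => ⟨by simp only [h1.2.2 Q u v], by simp only [h2.2.2 Q u v]⟩)
      (fun u v hu hv => ⟨by simp only [h1.1 u v hu hv], by simp only [h2.1 u v hu hv]⟩)
      (dir x) (w' : EE n) hdx (sp_norm w')
    simp only [key]

end Pool.Agent.H86.AR
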