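import Pool.Agent.H86.AR.Base

/-! # KZ: the transplantation kernel composed with the angular average -/

set_option autoImplicit false

namespace Pool.Agent.H86.AR

open MeasureTheory Set FourierTransform Pool.Agent.H83.LS Pool.Agent.H54.LS Pool.Agent.H93.AR
open scoped ENNReal NNReal SchwartzMap

theorem kz_e_add (a b : ℝ) : e (a + b) = e a * e b := by
  unfold e
  rw [← Complex.exp_add]
  congr 1
  push_cast
  ring

theorem kz_rpow (n : ℕ) (hn : 1 ≤ n) {ρ : ℝ} (hρ : 0 ≤ ρ) :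
    ρ ^ (((n : ℝ) - 1) / 2) = Real.sqrt ρ ^ (n - 1) := by
  rw [Real.sqrt_eq_rpow, ← Real.rpow_natCast, ← Real.rpow_mul hρ, Nat.cast_sub hn]
  congr 1
  push_cast
  ring

theorem kz_eq {n : ℕ} (hn : 1 ≤ n) (L : ℝ) (χ : ℝ → ℂ) (hχ : ∀ σ, χ σ ≠ 0 → 1 / 8 ≤ σ ∧ σ ≤ 8)
    (x : ℝ) {ρ : ℝ} (hρ : 0 ≤ ρ) (u v : EE n) :
    kz n L χ x ρ u v = ((Real.sqrt ρ ^ (n - 1) : ℝ) : ℂ) *
      osc n (fun q => χ q.1 * (((|q.1|) ^ (((n : ℝ) - 1) / 2) : ℝ) : ℂ) *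
        ((zk n L q.2 v : ℝ) : ℂ)) x ρ u := by
  have h0 : ∀ s : ℝ, s ∉ Ioi (0 : ℝ) → χ s = 0 := by
    intro s hs
    by_contra h
    have := (hχ s h).1
    rw [mem_Ioi, not_lt] at hs
    linarith
  unfold kz osc
  rw [← setIntegral_eq_integral_of_forall_compl_eq_zero (s := Ioi (0 : ℝ))
    (f := fun s : ℝ => ∫ w : Sp n, e (s * (x - ρ * inner ℝ u (w : EE n))) *
      (χ s * (((|s|) ^ (((n : ℝ) - 1) / 2) : ℝ) : ℂ) * ((zk n L (w : EE n) v : ℝ) : ℂ)) ∂(sg n))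
    (fun s hs => by simp [h0 s hs]), ← integral_const_mul]
  refine setIntegral_congr_fun measurableSet_Ioi fun s hs => ?_
  have hs0 : (0 : ℝ) < s := hs
  rw [← integral_const_mul, ← integral_const_mul]
  refine integral_congr_ae (Filter.Eventually.of_forall fun w => ?_)
  simp only
  rw [Real.mul_rpow hρ hs0.le, kz_rpow n hn hρ, abs_of_pos hs0,
    show s * (x - ρ * inner ℝ u (w : EE n)) = x * s + -(ρ * s * inner ℝ u (w : EE n)) by ring,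
    kz_e_add]
  push_cast
  ring

theorem kz_inv {N : ℕ} {a b : ℝ} (ha : 0 < a) (hb : 0 < b) (h : a ≤ 2 * b) :
    (b ^ N)⁻¹ ≤ 2 ^ N * (a ^ N)⁻¹ := by
  have h1 : a ^ N ≤ 2 ^ N * b ^ N := by
    rw [← mul_pow]
    exact pow_le_pow_left₀ ha.le h N
  have hbN : 0 < b ^ N := pow_pos hb N
  have haN : 0 < a ^ N := pow_pos ha N
  rw [inv_le_iff_one_le_mul₀ hbN]
  rw [show (2 : ℝ) ^ N * (a ^ N)⁻¹ * b ^ N = (2 ^ N * b ^ N) / a ^ N by rw [div_eq_mul_inv]; ring]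
  rwa [one_le_div haN]

theorem pf_kz (hKS : T_KS) (hZA : T_ZA) (hZB : T_ZB) : T_KZ := by
  intro n N hn
  obtain ⟨M, C1, h1⟩ := hKS n N hn
  obtain ⟨M', C2, h2⟩ := hZA n M hn
  obtain ⟨C3, h3⟩ := hZB n (by omega)
  refine ⟨M', |C1| * |C2| * 2 ^ N, fun χ B L x ρ u v hχ hL hρ hu hv => ?_⟩
  have hB : 0 ≤ B := by
    have h := hχ.2.2 0 (Nat.zero_le _) 0
    exact (norm_nonneg _).trans h
  have hL0 : 0 < L := by linarith
  have hρ1 : 1 ≤ ρ := le_trans (one_le_pow₀ hL) hρ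
  have hρ0 : 0 < ρ := by linarith
  have hsL : L ≤ Real.sqrt ρ := by
    rw [Real.le_sqrt hL0.le hρ0.le]
    exact hρ
  have hs0 : 0 < Real.sqrt ρ := by linarith
  rw [kz_eq (by omega) L χ hχ.2.1 x hρ0.le u v, norm_mul, Complex.norm_real,
    Real.norm_of_nonneg (pow_nonneg hs0.le _)]
  set g : ℝ × EE n → ℂ := fun q => χ q.1 * (((|q.1|) ^ (((n : ℝ) - 1) / 2) : ℝ) : ℂ) *
        ((zk n L q.2 v : ℝ) : ℂ) with hg
  have hSA : SA n M (1 / L) (C2 * B * L ^ (n - 1)) g := h2 χ B L v hχ hL hv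
  have hB2 : 0 ≤ C2 * B * L ^ (n - 1) := by
    have h := hSA.2.2 u hu 0 (Nat.zero_le _) (0, 0) (by simp)
    exact (norm_nonneg _).trans h
  have hLn : 0 < L ^ (n - 1) := pow_pos hL0 _
  set Dp : ℝ := max 0 (‖u - v‖ - 1 / L) with hDp
  set Dm : ℝ := max 0 (‖u + v‖ - 1 / L) with hDm
  have hsupp : ∀ (s : ℝ) (w : EE n), ‖w‖ = 1 → g (s, w) ≠ 0 → Dp ≤ ‖w - u‖ ∧ Dm ≤ ‖w + u‖ := by
    intro s w hw hgw
    have hz : zk n L w v ≠ 0 := by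
      intro h
      apply hgw
      simp [hg, h]
    have hd : ‖w - v‖ ≤ 1 / L := (h3 L hL).2.2.2.2.2.1 w v hw hv hz
    constructor
    · rw [hDp, max_le_iff]
      refine ⟨norm_nonneg _, ?_⟩
      have : ‖u - v‖ ≤ ‖w - u‖ + ‖w - v‖ := by
        calc ‖u - v‖ = ‖(w - v) - (w - u)‖ := by congr 1; abel
          _ ≤ ‖w - v‖ + ‖w - u‖ := norm_sub_le _ _
          _ = _ := add_comm _ _
      linarith
    · rw [hDm, max_le_iff]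
      refine ⟨norm_nonneg _, ?_⟩
      have : ‖u + v‖ ≤ ‖w + u‖ + ‖w - v‖ := by
        calc ‖u + v‖ = ‖(w + u) - (w - v)‖ := by congr 1; abel
          _ ≤ ‖w + u‖ + ‖w - v‖ := norm_sub_le _ _
      linarith
  have hK := h1 g (1 / L) (C2 * B * L ^ (n - 1)) x ρ Dp Dm u hSA hρ1
    (one_div_le_one_div_of_le hL0 hsL) hu (le_max_left _ _) (le_max_left _ _) hsupp
  have key : ∀ d : ℝ, 0 ≤ d →
      ((1 + Real.sqrt ρ * max 0 (d - 1 / L)) ^ N)⁻¹ ≤ 2 ^ N * ((1 + L * d) ^ N)⁻¹ := by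
    intro d hd
    have hm : 0 ≤ max 0 (d - 1 / L) := le_max_left _ _
    refine kz_inv (by positivity) (by positivity) ?_
    have h4 : L * max 0 (d - 1 / L) ≤ Real.sqrt ρ * max 0 (d - 1 / L) :=
      mul_le_mul_of_nonneg_right hsL hm
    have h5 : L * (d - 1 / L) ≤ L * max 0 (d - 1 / L) :=
      mul_le_mul_of_nonneg_left (le_max_right _ _) hL0.le
    have h6 : L * (d - 1 / L) = L * d - 1 := by field_simp
    have h7 : 0 ≤ L * max 0 (d - 1 / L) := mul_nonneg hL0.le hm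
    linarith
  have hp : 0 < (1 + |x - ρ|) ^ N := by positivity
  have hm : 0 < (1 + |x + ρ|) ^ N := by positivity
  have hS : ((1 + |x - ρ|) ^ N)⁻¹ * ((1 + Real.sqrt ρ * Dp) ^ N)⁻¹ +
      ((1 + |x + ρ|) ^ N)⁻¹ * ((1 + Real.sqrt ρ * Dm) ^ N)⁻¹ ≤
      2 ^ N * (((1 + |x - ρ|) ^ N)⁻¹ * ((1 + L * ‖u - v‖) ^ N)⁻¹ +
      ((1 + |x + ρ|) ^ N)⁻¹ * ((1 + L * ‖u + v‖) ^ N)⁻¹) := by
    have a1 := mul_le_mul_of_nonneg_left (key ‖u - v‖ (norm_nonneg _)) (inv_nonneg.mpr hp.le)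
    have a2 := mul_le_mul_of_nonneg_left (key ‖u + v‖ (norm_nonneg _)) (inv_nonneg.mpr hm.le)
    rw [← hDp] at a1
    rw [← hDm] at a2
    calc _ ≤ ((1 + |x - ρ|) ^ N)⁻¹ * (2 ^ N * ((1 + L * ‖u - v‖) ^ N)⁻¹) +
          ((1 + |x + ρ|) ^ N)⁻¹ * (2 ^ N * ((1 + L * ‖u + v‖) ^ N)⁻¹) := add_le_add a1 a2
      _ = _ := by ring
  have hS0 : 0 ≤ ((1 + |x - ρ|) ^ N)⁻¹ * ((1 + Real.sqrt ρ * Dp) ^ N)⁻¹ +
      ((1 + |x + ρ|) ^ N)⁻¹ * ((1 + Real.sqrt ρ * Dm) ^ N)⁻¹ := by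
    have : 0 ≤ Dp := le_max_left _ _
    have : 0 ≤ Dm := le_max_left _ _
    positivity
  have hpow : 0 < Real.sqrt ρ ^ (n - 1) := pow_pos hs0 _
  calc Real.sqrt ρ ^ (n - 1) * ‖osc n g x ρ u‖
      ≤ Real.sqrt ρ ^ (n - 1) * (C1 * (C2 * B * L ^ (n - 1)) * (Real.sqrt ρ ^ (n - 1))⁻¹ *
        (((1 + |x - ρ|) ^ N)⁻¹ * ((1 + Real.sqrt ρ * Dp) ^ N)⁻¹ +
          ((1 + |x + ρ|) ^ N)⁻¹ * ((1 + Real.sqrt ρ * Dm) ^ N)⁻¹)) :=
        mul_le_mul_of_nonneg_left hK hpow.le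
    _ = C1 * (C2 * B * L ^ (n - 1)) *
        (((1 + |x - ρ|) ^ N)⁻¹ * ((1 + Real.sqrt ρ * Dp) ^ N)⁻¹ +
          ((1 + |x + ρ|) ^ N)⁻¹ * ((1 + Real.sqrt ρ * Dm) ^ N)⁻¹) := by
        field_simp
    _ ≤ |C1| * (|C2| * B * L ^ (n - 1)) *
        (2 ^ N * (((1 + |x - ρ|) ^ N)⁻¹ * ((1 + L * ‖u - v‖) ^ N)⁻¹ +
      ((1 + |x + ρ|) ^ N)⁻¹ * ((1 + L * ‖u + v‖) ^ N)⁻¹)) := by
        refine mul_le_mul ?_ hS hS0 (by positivity)
        refine mul_le_mul (le_abs_self _) ?_ hB2 (abs_nonneg _)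
        exact mul_le_mul_of_nonneg_right (mul_le_mul_of_nonneg_right (le_abs_self _) hB) hLn.le
    _ = _ := by ring

end Pool.Agent.H86.AR
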