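import Pool.Agent.H86.AR.Base

/-! # ZA, part 1: smoothness and scaling of the zonal kernel -/

set_option autoImplicit false

namespace Pool.Agent.H86.AR

open MeasureTheory Set Metric FourierTransform Pool.Agent.H83.LS Pool.Agent.H54.LS
  Pool.Agent.H93.AR
open scoped ENNReal NNReal SchwartzMap Convolution

theorem za_eta_one {s : ℝ} (hs : s ≤ 1) : eta0 s = 1 :=
  Real.smoothTransition.one_of_one_le (by linarith)

theorem za_eta_zero {s : ℝ} (hs : 2 ≤ s) : eta0 s = 0 :=
  Real.smoothTransition.zero_of_nonpos (by linarith)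

theorem za_eta_smooth : ContDiff ℝ (⊤ : ℕ∞) eta0 := by
  unfold eta0
  exact Real.smoothTransition.contDiff.comp (contDiff_const.sub contDiff_id)

/-- the bump -/
noncomputable def za_psi (n : ℕ) (y : EE n) : ℝ := eta0 (4 * ‖y‖)

theorem za_psi_smooth (n : ℕ) : ContDiff ℝ (⊤ : ℕ∞) (za_psi n) := by
  rw [contDiff_iff_contDiffAt]
  intro y
  by_cases hy : y = 0
  · have h1 : za_psi n =ᶠ[nhds y] fun _ => 1 := by
      have h2 : ball (0 : EE n) (1 / 4) ∈ nhds y := by
        rw [hy]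
        exact ball_mem_nhds _ (by norm_num)
      filter_upwards [h2] with z hz
      rw [mem_ball_zero_iff] at hz
      exact za_eta_one (by linarith)
    exact contDiffAt_const.congr_of_eventuallyEq h1
  · exact za_eta_smooth.contDiffAt.comp y (contDiffAt_const.mul (contDiffAt_norm ℝ hy))

theorem za_psi_zero {n : ℕ} {y : EE n} (hy : 1 / 2 ≤ ‖y‖) : za_psi n y = 0 :=
  za_eta_zero (by linarith)

theorem za_param {P : Type} [NormedAddCommGroup P] [NormedSpace ℝ P] (h : P × ℝ → ℝ)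
    (hh : ContDiff ℝ (⊤ : ℕ∞) h) (S : Set ℝ) (hS : MeasurableSet S) (R : ℝ) (hR : 0 < R)
    (hSR : S ⊆ Icc (-R) R) : ContDiff ℝ (⊤ : ℕ∞) (fun p => ∫ t in S, h (p, t)) := by
  have h1 := contDiffOn_convolution_right_with_param_comp (n := ⊤) (μ := (volume : Measure ℝ))
      (ContinuousLinearMap.mul ℝ ℝ) (s := (univ : Set P)) (v := fun _ : P => (0 : ℝ))
      contDiffOn_const (f := S.indicator fun _ => (1 : ℝ))
      (g := fun (p : P) (t : ℝ) => eta0 (t / R) * eta0 (-(t / R)) * h (p, -t))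
      (k := Icc (-(2 * R)) (2 * R)) isOpen_univ isCompact_Icc ?_ ?_ ?_
  · rw [← contDiffOn_univ]
    refine h1.congr fun p _ => ?_
    rw [convolution]
    have h3 : (fun t : ℝ => (ContinuousLinearMap.mul ℝ ℝ) (S.indicator (fun _ => (1 : ℝ)) t)
        (eta0 ((0 - t) / R) * eta0 (-((0 - t) / R)) * h (p, -(0 - t)))) =
        S.indicator fun t => h (p, t) := by
      ext t
      by_cases ht : t ∈ S
      · have h4 := hSR ht
        have h5 : (0 - t) / R ≤ 1 := by
          rw [div_le_one hR]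
          linarith [h4.1]
        have h6 : -((0 - t) / R) ≤ 1 := by
          rw [← neg_div, div_le_one hR]
          linarith [h4.2]
        rw [indicator_of_mem ht, indicator_of_mem ht, za_eta_one h5, za_eta_one h6]
        simp
      · rw [indicator_of_notMem ht, indicator_of_notMem ht]
        simp
    rw [h3, integral_indicator hS]
  · intro p t _ ht
    rw [mem_Icc, not_and_or, not_le, not_le] at ht
    rcases ht with ht | ht
    · have : eta0 (-(t / R)) = 0 := by
        apply za_eta_zero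
        rw [← neg_div, le_div_iff₀ hR]
        linarith
      rw [this]
      ring
    · have : eta0 (t / R) = 0 := by
        apply za_eta_zero
        rw [le_div_iff₀ hR]
        linarith
      rw [this]
      ring
  · exact (locallyIntegrable_const (1 : ℝ)).indicator hS
  · apply ContDiff.contDiffOn
    have e1 : ContDiff ℝ (⊤ : ℕ∞) fun q : P × ℝ => eta0 (q.2 / R) :=
      za_eta_smooth.comp (contDiff_snd.div_const R)
    have e2 : ContDiff ℝ (⊤ : ℕ∞) fun q : P × ℝ => eta0 (-(q.2 / R)) :=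
      za_eta_smooth.comp (contDiff_snd.div_const R).neg
    have e3 : ContDiff ℝ (⊤ : ℕ∞) fun q : P × ℝ => h (q.1, -q.2) :=
      hh.comp (contDiff_fst.prodMk contDiff_snd.neg)
    exact (e1.mul e2).mul e3

theorem za_bump {n : ℕ} {L : ℝ} (hL : 0 ≤ L) (y : EE n) :
    bump n L y = bc n * L ^ n * za_psi n (L • y) := by
  unfold bump za_psi
  rw [norm_smul, Real.norm_of_nonneg hL]

theorem za_norm_v {n : ℕ} {v : EE n} (hv : ‖v‖ = 1) {t : ℝ} (ht : 0 ≤ t) : ‖t • v‖ = t := by
  rw [norm_smul, hv, mul_one, Real.norm_of_nonneg ht]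

theorem za_zk_smooth {n : ℕ} {L : ℝ} (hL : 1 ≤ L) {v : EE n} (hv : ‖v‖ = 1) :
    ContDiff ℝ (⊤ : ℕ∞) (fun x : EE n => zk n L x v) := by
  rw [contDiff_iff_contDiffAt]
  intro x0
  set r : ℝ := ‖x0‖ + 1 with hr
  have hr0 : 0 < r := by positivity
  have h1 := za_param (P := EE n)
    (fun q => bc n * L ^ n * za_psi n (L • (q.2 • v - q.1)) * q.2 ^ (n - 1)) ?_
    (Ioc 0 (r + 1)) measurableSet_Ioc (r + 1) (by linarith)
    (fun t ht => ⟨by linarith [ht.1], ht.2⟩)
  · refine (h1.contDiffAt (x := x0)).congr_of_eventuallyEq ?_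
    have hb : ball (0 : EE n) r ∈ nhds x0 :=
      isOpen_ball.mem_nhds (by rw [mem_ball_zero_iff, hr]; linarith)
    filter_upwards [hb] with x hx
    rw [mem_ball_zero_iff] at hx
    unfold zk
    rw [setIntegral_eq_of_subset_of_forall_sdiff_eq_zero measurableSet_Ioi
      (Ioc_subset_Ioi_self : Ioc (0 : ℝ) (r + 1) ⊆ Ioi 0)]
    · refine setIntegral_congr_fun measurableSet_Ioc fun t _ => ?_
      rw [za_bump (by linarith)]
    · intro t ht
      have ht0 : (0 : ℝ) < t := ht.1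
      have ht1 : r + 1 < t := by
        by_contra hcon
        exact ht.2 ⟨ht0, not_lt.mp hcon⟩
      have h2 : 1 ≤ ‖t • v - x‖ := by
        have := norm_sub_norm_le (t • v) x
        rw [za_norm_v hv ht0.le] at this
        linarith
      rw [za_bump (by linarith), za_psi_zero, mul_zero, zero_mul]
      rw [norm_smul, Real.norm_of_nonneg (by linarith : (0 : ℝ) ≤ L)]
      nlinarith
  · have e1 : ContDiff ℝ (⊤ : ℕ∞) fun q : EE n × ℝ => L • (q.2 • v - q.1) := by
      fun_prop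
    exact (contDiff_const.mul ((za_psi_smooth n).comp e1)).mul (contDiff_snd.pow _)

/-- the rescaled zonal kernel -/
noncomputable def za_T (n : ℕ) (q : (EE n × EE n × ℝ) × EE n) : ℝ :=
  ∫ τ in Ioc (-1 : ℝ) 1, za_psi n (q.1.1 + τ • q.1.2.1 - q.2) * (1 + q.1.2.2 * τ) ^ (n - 1)

theorem za_T_smooth (n : ℕ) : ContDiff ℝ (⊤ : ℕ∞) (za_T n) := by
  refine za_param (P := (EE n × EE n × ℝ) × EE n)
    (fun q => za_psi n (q.1.1.1 + q.2 • q.1.1.2.1 - q.1.2) * (1 + q.1.1.2.2 * q.2) ^ (n - 1)) ?_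
    (Ioc (-1) 1) measurableSet_Ioc 1 one_pos Ioc_subset_Icc_self
  have e1 : ContDiff ℝ (⊤ : ℕ∞) fun q : ((EE n × EE n × ℝ) × EE n) × ℝ =>
      q.1.1.1 + q.2 • q.1.1.2.1 - q.1.2 := by fun_prop
  have e2 : ContDiff ℝ (⊤ : ℕ∞) fun q : ((EE n × EE n × ℝ) × EE n) × ℝ =>
      1 + q.1.1.2.2 * q.2 := by fun_prop
  exact ((za_psi_smooth n).comp e1).mul (e2.pow _)

/-- the place where the integrand does not vanish -/
theorem za_loc {n : ℕ} {L : ℝ} (hL : 1 ≤ L) {v ζ q : EE n} (hv : ‖v‖ = 1) (hζ : ‖ζ‖ = 1)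
    (hq : ‖q‖ ≤ 0.3) {t : ℝ} (ht : 0 < t)
    (hne : za_psi n (L • (t • v - (ζ + (1 / L) • q))) ≠ 0) :
    L * |1 - t| ≤ 0.8 ∧ L * ‖v - ζ‖ ≤ 1.6 := by
  have hL0 : 0 < L := by linarith
  have h1 : L * ‖t • v - (ζ + (1 / L) • q)‖ < 1 / 2 := by
    by_contra hcon
    apply hne
    apply za_psi_zero
    rw [norm_smul, Real.norm_of_nonneg hL0.le]
    exact not_lt.mp hcon
  have h2 : L * ‖(1 / L) • q‖ = ‖q‖ := by
    rw [norm_smul, Real.norm_of_nonneg (by positivity)]
    field_simp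
  have h3 : ‖t • v - ζ‖ ≤ ‖t • v - (ζ + (1 / L) • q)‖ + ‖(1 / L) • q‖ := by
    calc ‖t • v - ζ‖ = ‖(t • v - (ζ + (1 / L) • q)) + (1 / L) • q‖ := by congr 1; abel
      _ ≤ _ := norm_add_le _ _
  have h4 : L * ‖t • v - ζ‖ ≤ 0.8 := by
    have := mul_le_mul_of_nonneg_left h3 hL0.le
    rw [mul_add, h2] at this
    linarith
  have h5 : |1 - t| ≤ ‖t • v - ζ‖ := by
    have := abs_norm_sub_norm_le (t • v) ζ
    rw [za_norm_v hv ht.le, hζ, abs_sub_comm] at this
    exact this
  have h6 : ‖v - ζ‖ ≤ |1 - t| + ‖t • v - ζ‖ := by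
    calc ‖v - ζ‖ = ‖(1 - t) • v + (t • v - ζ)‖ := by congr 1; rw [sub_smul, one_smul]; abel
      _ ≤ ‖(1 - t) • v‖ + ‖t • v - ζ‖ := norm_add_le _ _
      _ = _ := by rw [norm_smul, hv, mul_one, Real.norm_eq_abs]
  have h7 := mul_le_mul_of_nonneg_left h5 hL0.le
  have h8 := mul_le_mul_of_nonneg_left h6 hL0.le
  rw [mul_add] at h8
  constructor <;> linarith

theorem za_far {n : ℕ} {L : ℝ} (hL : 1 ≤ L) {v ζ q : EE n} (hv : ‖v‖ = 1) (hζ : ‖ζ‖ = 1)
    (hq : ‖q‖ ≤ 0.3) (hβ : 3 < L * ‖v - ζ‖) : zk n L (ζ + (1 / L) • q) v = 0 := by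
  unfold zk
  refine (setIntegral_congr_fun measurableSet_Ioi fun t ht => ?_).trans
    (by simp : ∫ _ in Ioi (0 : ℝ), (0 : ℝ) = 0)
  rw [za_bump (by linarith)]
  by_contra hne
  have h1 : za_psi n (L • (t • v - (ζ + (1 / L) • q))) ≠ 0 := by
    intro h
    apply hne
    rw [h]
    ring
  have := (za_loc hL hv hζ hq ht h1).2
  linarith

theorem za_near {n : ℕ} (hn : 1 ≤ n) {L : ℝ} (hL : 1 ≤ L) {v ζ q : EE n} (hv : ‖v‖ = 1)
    (hζ : ‖ζ‖ = 1) (hq : ‖q‖ ≤ 0.3) :
    zk n L (ζ + (1 / L) • q) v = bc n * L ^ (n - 1) * za_T n ((L • (v - ζ), v, 1 / L), q) := by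
  have hL0 : 0 < L := by linarith
  have hL1 : 1 / L ≤ 1 := by rw [div_le_one hL0]; exact hL
  have hLp : 0 < 1 / L := by positivity
  set F : ℝ → ℝ := fun t => bc n * L ^ n * za_psi n (L • (t • v - (ζ + (1 / L) • q))) *
    t ^ (n - 1) with hF
  have h1 : zk n L (ζ + (1 / L) • q) v = ∫ t in Ioc (1 + 1 / L * -1) (1 + 1 / L * 1), F t := by
    unfold zk
    have e1 : ∫ t in Ioi (0 : ℝ), bump n L (t • v - (ζ + (1 / L) • q)) * t ^ (n - 1) =
        ∫ t in Ioi (0 : ℝ), F t := by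
      refine setIntegral_congr_fun measurableSet_Ioi fun t _ => ?_
      simp only [hF]
      rw [za_bump hL0.le]
    rw [e1]
    refine setIntegral_eq_of_subset_of_forall_sdiff_eq_zero measurableSet_Ioi ?_ ?_
    · intro t ht
      rw [mem_Ioi]
      have := ht.1
      linarith
    · intro t ht
      by_contra hne
      have h1 : za_psi n (L • (t • v - (ζ + (1 / L) • q))) ≠ 0 := by
        intro h
        apply hne
        rw [hF]
        simp only
        rw [h]
        ring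
      have h2 := (za_loc hL hv hζ hq ht.1 h1).1
      apply ht.2
      have h3 : |1 - t| ≤ 0.8 * (1 / L) := by
        rw [mul_one_div, le_div_iff₀ hL0, mul_comm]
        exact h2
      rw [abs_le] at h3
      constructor
      · linarith
      · linarith
  have h2 := intervalIntegral.integral_comp_add_mul (a := -1) (b := 1) F hLp.ne' 1
  rw [intervalIntegral.integral_of_le (by norm_num),
    intervalIntegral.integral_of_le (by linarith)] at h2
  rw [h1]
  have h3 : ∫ t in Ioc (1 + 1 / L * -1) (1 + 1 / L * 1), F t =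
      (1 / L) * ∫ τ in Ioc (-1 : ℝ) 1, F (1 + 1 / L * τ) := by
    rw [h2, smul_eq_mul, ← mul_assoc, mul_inv_cancel₀ hLp.ne', one_mul]
  rw [h3, za_T, ← integral_const_mul, ← integral_const_mul]
  refine setIntegral_congr_fun measurableSet_Ioc fun τ _ => ?_
  simp only [hF]
  have e2 : L • ((1 + 1 / L * τ) • v - (ζ + (1 / L) • q)) = L • (v - ζ) + τ • v - q := by
    rw [smul_sub, smul_add, smul_smul, smul_smul, smul_sub, mul_add, mul_one, add_smul,
      show L * (1 / L * τ) = τ by field_simp, show L * (1 / L) = 1 by field_simp, one_smul]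
    abel
  rw [e2]
  have e3 : L ^ n = L * L ^ (n - 1) := by
    rw [← pow_succ']
    congr 1
    omega
  rw [e3]
  field_simp

end Pool.Agent.H86.AR
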